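import Mathlib

/-!
# The Newton covering number of the cube: definitions
-/

namespace Pool.Agent.Q128.NC

open Set

/-- Euclidean `d`-space. -/
abbrev E (d : ℕ) : Type := EuclideanSpace ℝ (Fin d)

/-- The unit cube `[0,1]^d`. -/
def cube (d : ℕ) : Set (E d) := {x | ∀ i, 0 ≤ x i ∧ x i ≤ 1}

/-- The union of `n` congruent copies of the unit cube contains an open set containing it. -/
def Covers (d n : ℕ) : Prop :=
  ∃ (g : Fin n → (E d ≃ᵢ E d)) (U : Set (E d)),
    IsOpen U ∧ cube d ⊆ U ∧ U ⊆ ⋃ i, g i '' cube d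

/-- The Newton covering number of the unit cube: the least `n` with `Covers d n`. -/
noncomputable def newton (d : ℕ) : ℕ := sInf {n : ℕ | Covers d n}

theorem Covers.mono {d m n : ℕ} (h : Covers d m) (hmn : m ≤ n) : Covers d n := by
  obtain ⟨g, U, hU, hC, hg⟩ := h
  refine ⟨fun i => if h : (i : ℕ) < m then g ⟨i, h⟩ else IsometryEquiv.refl _, U, hU, hC, ?_⟩
  intro x hx
  obtain ⟨i, hi⟩ := mem_iUnion.1 (hg hx)
  refine mem_iUnion.2 ⟨⟨i, lt_of_lt_of_le i.2 hmn⟩, ?_⟩
  simpa using hi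

end Pool.Agent.Q128.NC
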