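import Mathlib

/-!
# Two orthogonal vectors and the cube `[-1,1]^d`
-/

namespace Pool.Agent.Q128.NC

open Finset

/-- If `a ⟂ b`, `|b| = 1` and `|a|² > d - 1`, then no interval of length one containing `0`
consists of `τ` with `a + τ b` in the cube `[-1,1]^d`. -/
theorem key {d : ℕ} (a b : Fin d → ℝ) (ha : (d : ℝ) - 1 < ∑ i, a i ^ 2)
    (hb : ∑ i, b i ^ 2 = 1) (hab : ∑ i, a i * b i = 0) {α β : ℝ} (hα : 0 ≤ α) (hβ : 0 ≤ β)
    (hαβ : α + β = 1) (h0 : ∀ i, |a i| ≤ 1) (h1 : ∀ i, |a i + β * b i| ≤ 1)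
    (h2 : ∀ i, |a i - α * b i| ≤ 1) : False := by
  classical
  let P : Finset (Fin d) := univ.filter fun i => 0 ≤ a i * b i
  let N : Finset (Fin d) := univ.filter fun i => ¬ 0 ≤ a i * b i
  have hsplit : ∀ f : Fin d → ℝ, ∑ i ∈ P, f i + ∑ i ∈ N, f i = ∑ i, f i := fun f =>
    Finset.sum_filter_add_sum_filter_not univ _ f
  have hP1 : ∀ i ∈ P, |a i| + β * |b i| ≤ 1 := by
    intro i hi
    have h3 : 0 ≤ a i * b i := (mem_filter.1 hi).2
    have h4 : |a i + β * b i| = |a i| + β * |b i| := by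
      rcases le_total 0 (a i) with h5 | h5
      · rcases le_total 0 (b i) with h6 | h6
        · rw [abs_of_nonneg h5, abs_of_nonneg h6, abs_of_nonneg (by positivity)]
        · have h7 : a i * b i = 0 := le_antisymm (mul_nonpos_of_nonneg_of_nonpos h5 h6) h3
          rcases mul_eq_zero.1 h7 with h8 | h8
          · rw [h8]
            simp [abs_mul, abs_of_nonneg hβ]
          · rw [h8]
            simp
      · rcases le_total 0 (b i) with h6 | h6
        · have h7 : a i * b i = 0 := le_antisymm (mul_nonpos_of_nonpos_of_nonneg h5 h6) h3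
          rcases mul_eq_zero.1 h7 with h8 | h8
          · rw [h8]
            simp [abs_mul, abs_of_nonneg hβ]
          · rw [h8]
            simp
        · have h9 : β * b i ≤ 0 := mul_nonpos_of_nonneg_of_nonpos hβ h6
          rw [abs_of_nonpos h5, abs_of_nonpos h6, abs_of_nonpos (by linarith)]
          ring
    rw [← h4]
    exact h1 i
  have hN1 : ∀ i ∈ N, |a i| + α * |b i| ≤ 1 := by
    intro i hi
    have h3 : ¬ 0 ≤ a i * b i := (mem_filter.1 hi).2
    push Not at h3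
    have h4 : |a i - α * b i| = |a i| + α * |b i| := by
      rcases le_total 0 (a i) with h5 | h5
      · have h6 : b i ≤ 0 := by
          by_contra hc
          push Not at hc
          have := mul_nonneg h5 hc.le
          linarith
        have h9 : α * b i ≤ 0 := mul_nonpos_of_nonneg_of_nonpos hα h6
        rw [abs_of_nonneg h5, abs_of_nonpos h6, abs_of_nonneg (by linarith)]
        ring
      · have h6 : 0 ≤ b i := by
          by_contra hc
          push Not at hc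
          have := mul_nonneg_of_nonpos_of_nonpos h5 hc.le
          linarith
        have h9 : 0 ≤ α * b i := mul_nonneg hα h6
        rw [abs_of_nonpos h5, abs_of_nonneg h6, abs_of_nonpos (by linarith)]
        ring
    rw [← h4]
    exact h2 i
  -- the two correlations agree
  have hK : ∑ i ∈ P, |a i| * |b i| = ∑ i ∈ N, |a i| * |b i| := by
    have h3 := hsplit fun i => a i * b i
    have h4 : ∑ i ∈ P, a i * b i = ∑ i ∈ P, |a i| * |b i| := by
      refine sum_congr rfl fun i hi => ?_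
      rw [← abs_mul, abs_of_nonneg (mem_filter.1 hi).2]
    have h5 : ∑ i ∈ N, a i * b i = -∑ i ∈ N, |a i| * |b i| := by
      rw [← sum_neg_distrib]
      refine sum_congr rfl fun i hi => ?_
      have h6 : ¬ 0 ≤ a i * b i := (mem_filter.1 hi).2
      push Not at h6
      rw [← abs_mul, abs_of_neg h6]
      ring
    linarith
  have hA0 : ∀ i, 0 ≤ |a i| := fun i => abs_nonneg _
  have hB0 : ∀ i, 0 ≤ |b i| := fun i => abs_nonneg _
  have hdef : ∑ i, (1 - |a i| ^ 2) < 1 := by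
    rw [sum_sub_distrib]
    simp only [sum_const, card_univ, Fintype.card_fin, nsmul_eq_mul, mul_one, sq_abs]
    linarith
  have hdefi : ∀ i, 0 ≤ 1 - |a i| ^ 2 := fun i => by nlinarith [h0 i, hA0 i]
  -- a general form of the step used for both signs
  have hstep : ∀ (Q R : Finset (Fin d)) (γ : ℝ), 0 ≤ γ → Disjoint Q R →
      (∀ i ∈ R, |a i| + γ * |b i| ≤ 1) → (∑ i ∈ Q, |a i| * |b i| = ∑ i ∈ R, |a i| * |b i|) →
      ∀ i ∈ Q, γ * |b i| - |a i| ≤ 1 - |b i| := by
    intro Q R γ hγ hdis hR hQR i hi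
    by_contra hc
    push Not at hc
    have hbi : |b i| ≤ 1 := by
      have h3 : b i ^ 2 ≤ ∑ j, b j ^ 2 :=
        single_le_sum (f := fun j => b j ^ 2) (fun j _ => sq_nonneg _) (mem_univ i)
      rw [hb] at h3
      rw [abs_le]
      constructor <;> nlinarith
    have h3 : |a i| < γ * |b i| := by linarith
    have h4 : γ * ∑ j ∈ R, |b j| < |a i| ^ 2 := by
      have h5 : γ * ∑ j ∈ R, |b j| ≤ ∑ j ∈ R, (1 - |a j| ^ 2) := by
        rw [mul_sum]
        refine sum_le_sum fun j hj => ?_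
        have h6 := hR j hj
        nlinarith [hA0 j, h0 j]
      have h6 : ∑ j ∈ R, (1 - |a j| ^ 2) + (1 - |a i| ^ 2) ≤ ∑ j, (1 - |a j| ^ 2) := by
        have h7 : i ∉ R := fun h => (Finset.disjoint_left.1 hdis hi) h
        have h8 := sum_insert h7 (f := fun j => 1 - |a j| ^ 2)
        have h9 : ∑ j ∈ insert i R, (1 - |a j| ^ 2) ≤ ∑ j, (1 - |a j| ^ 2) :=
          sum_le_univ_sum_of_nonneg hdefi
        linarith
      linarith
    have h5 : |a i| * |b i| ≤ ∑ j ∈ R, |b j| := by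
      have h6 : |a i| * |b i| ≤ ∑ j ∈ Q, |a j| * |b j| :=
        single_le_sum (f := fun j => |a j| * |b j|)
          (fun j _ => mul_nonneg (hA0 j) (hB0 j)) hi
      have h7 : ∑ j ∈ R, |a j| * |b j| ≤ ∑ j ∈ R, |b j| :=
        sum_le_sum fun j _ => by nlinarith [hA0 j, hB0 j, h0 j]
      linarith
    have h6 : γ * (|a i| * |b i|) ≤ γ * ∑ j ∈ R, |b j| := mul_le_mul_of_nonneg_left h5 hγ
    have h7 : |a i| * (γ * |b i|) < |a i| * |a i| := by nlinarith
    have h8 : 0 < |a i| := by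
      rcases (hA0 i).lt_or_eq with h | h
      · exact h
      · rw [← h] at h7
        simp at h7
    have h9 := lt_of_mul_lt_mul_left h7 h8.le
    linarith
  have hdisPN : Disjoint P N := disjoint_filter_filter_not _ _ _
  -- the quadratic estimate on one side
  have hquad : ∀ (Q R : Finset (Fin d)) (γ τ : ℝ), (∀ f : Fin d → ℝ,
      ∑ i ∈ Q, f i + ∑ i ∈ R, f i = ∑ i, f i) → τ ^ 2 = γ ^ 2 →
      (∀ i ∈ Q, (a i + τ * b i) ^ 2 ≤ (1 - |b i|) ^ 2) → (∀ i ∈ R, (a i + τ * b i) ^ 2 ≤ 1) →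
      γ ^ 2 < 1 - 2 * ∑ i ∈ Q, |b i| + ∑ i ∈ Q, b i ^ 2 := by
    intro Q R γ τ hs hτ hQ hR
    have h3 : ∑ i, (a i + τ * b i) ^ 2 = ∑ i, a i ^ 2 + τ ^ 2 := by
      have h4 : ∀ i, (a i + τ * b i) ^ 2 = a i ^ 2 + (2 * τ) * (a i * b i) + τ ^ 2 * b i ^ 2 :=
        fun i => by ring
      rw [sum_congr rfl fun i _ => h4 i, sum_add_distrib, sum_add_distrib, ← mul_sum,
        ← mul_sum, hab, hb]
      ring
    have h4 : ∑ i ∈ Q, (a i + τ * b i) ^ 2 ≤ ∑ i ∈ Q, (1 - |b i|) ^ 2 := sum_le_sum hQ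
    have h5 : ∑ i ∈ R, (a i + τ * b i) ^ 2 ≤ ∑ i ∈ R, (1 : ℝ) := sum_le_sum hR
    have h6 : ∑ i ∈ Q, (1 - |b i|) ^ 2 =
        ∑ i ∈ Q, (1 : ℝ) - 2 * ∑ i ∈ Q, |b i| + ∑ i ∈ Q, b i ^ 2 := by
      have h7 : ∀ i, (1 - |b i|) ^ 2 = 1 - 2 * |b i| + b i ^ 2 := fun i => by
        rw [← sq_abs (b i)]
        ring
      rw [sum_congr rfl fun i _ => h7 i, sum_add_distrib, sum_sub_distrib, ← mul_sum]
    have h7 := hs fun i => (a i + τ * b i) ^ 2
    have h8 := hs fun _ => (1 : ℝ)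
    simp only [sum_const, card_univ, Fintype.card_fin, nsmul_eq_mul, mul_one] at h8 h5 h6
    rw [← hτ]
    linarith
  have hsq : ∀ i, a i ^ 2 = |a i| ^ 2 := fun i => (sq_abs _).symm
  have hsqb : ∀ i, b i ^ 2 = |b i| ^ 2 := fun i => (sq_abs _).symm
  have hqP : α ^ 2 < 1 - 2 * ∑ i ∈ P, |b i| + ∑ i ∈ P, b i ^ 2 := by
    refine hquad P N α (-α) hsplit (by ring) ?_ ?_
    · intro i hi
      have h3 := hstep P N α hα hdisPN hN1 hK i hi
      have h4 := hP1 i hi
      have h5 : a i * b i = |a i| * |b i| := by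
        rw [← abs_mul, abs_of_nonneg (mem_filter.1 hi).2]
      have h6 : (a i + -α * b i) ^ 2 = (|a i| - α * |b i|) ^ 2 := by
        have h7 : (a i + -α * b i) ^ 2 = a i ^ 2 - 2 * α * (a i * b i) + α ^ 2 * b i ^ 2 := by
          ring
        rw [h7, h5, hsq, hsqb]
        ring
      rw [h6]
      have h8 : |a i| - α * |b i| ≤ 1 - |b i| := by nlinarith [hB0 i]
      exact sq_le_sq' (by linarith) h8
    · intro i _
      have h3 := h2 i
      have h4 : a i + -α * b i = a i - α * b i := by ring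
      rw [h4, ← sq_abs]
      exact pow_le_one₀ (abs_nonneg _) h3
  have hqN : β ^ 2 < 1 - 2 * ∑ i ∈ N, |b i| + ∑ i ∈ N, b i ^ 2 := by
    refine hquad N P β β (fun f => by rw [add_comm]; exact hsplit f) rfl ?_ ?_
    · intro i hi
      have h3 := hstep N P β hβ hdisPN.symm hP1 hK.symm i hi
      have h4 := hN1 i hi
      have h5 : a i * b i = -(|a i| * |b i|) := by
        have h6 : ¬ 0 ≤ a i * b i := (mem_filter.1 hi).2
        push Not at h6
        rw [← abs_mul, abs_of_neg h6]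
        ring
      have h6 : (a i + β * b i) ^ 2 = (|a i| - β * |b i|) ^ 2 := by
        have h7 : (a i + β * b i) ^ 2 = a i ^ 2 + 2 * β * (a i * b i) + β ^ 2 * b i ^ 2 := by
          ring
        rw [h7, h5, hsq, hsqb]
        ring
      rw [h6]
      have h8 : |a i| - β * |b i| ≤ 1 - |b i| := by nlinarith [hB0 i]
      exact sq_le_sq' (by linarith) h8
    · intro i _
      rw [← sq_abs]
      exact pow_le_one₀ (abs_nonneg _) (h1 i)
  -- the sums of the entries of `b`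
  have hsum : ∀ Q : Finset (Fin d), Real.sqrt (∑ i ∈ Q, b i ^ 2) ≤ ∑ i ∈ Q, |b i| := by
    intro Q
    refine Real.sqrt_le_iff.2 ⟨sum_nonneg fun i _ => hB0 i, ?_⟩
    rw [sq, sum_mul]
    refine sum_le_sum fun i hi => ?_
    rw [hsqb, sq]
    exact mul_le_mul_of_nonneg_left (single_le_sum (f := fun j => |b j|)
      (fun j _ => hB0 j) hi) (hB0 i)
  set p : ℝ := Real.sqrt (∑ i ∈ P, b i ^ 2) with hp
  set q : ℝ := Real.sqrt (∑ i ∈ N, b i ^ 2) with hq
  have hp2 : p ^ 2 = ∑ i ∈ P, b i ^ 2 := Real.sq_sqrt (sum_nonneg fun i _ => sq_nonneg _)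
  have hq2 : q ^ 2 = ∑ i ∈ N, b i ^ 2 := Real.sq_sqrt (sum_nonneg fun i _ => sq_nonneg _)
  have hp0 : 0 ≤ p := Real.sqrt_nonneg _
  have hq0 : 0 ≤ q := Real.sqrt_nonneg _
  have hpq : p ^ 2 + q ^ 2 = 1 := by
    rw [hp2, hq2, ← hb]
    exact hsplit fun i => b i ^ 2
  have hp1 : p ≤ 1 := by nlinarith
  have hq1 : q ≤ 1 := by nlinarith
  have h3 : α < 1 - p := by
    have h4 := hsum P
    rw [← hp2] at hqP
    refine lt_of_pow_lt_pow_left₀ 2 (by linarith) ?_
    nlinarith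
  have h4 : β < 1 - q := by
    have h5 := hsum N
    rw [← hq2] at hqN
    refine lt_of_pow_lt_pow_left₀ 2 (by linarith) ?_
    nlinarith
  have h5 : 1 ≤ p + q := by nlinarith
  linarith

/-- The set of `τ` with `a + τ b` in `[-1,1]^d` contains no interval of length at least one
around `0`. -/
theorem key2 {d : ℕ} (a b : Fin d → ℝ) (ha : (d : ℝ) - 1 < ∑ i, a i ^ 2)
    (hb : ∑ i, b i ^ 2 = 1) (hab : ∑ i, a i * b i = 0) {α β : ℝ} (hα : 0 ≤ α) (hβ : 0 ≤ β)
    (h0 : ∀ i, |a i| ≤ 1) (h1 : ∀ i, |a i + β * b i| ≤ 1)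
    (h2 : ∀ i, |a i - α * b i| ≤ 1) : α + β < 1 := by
  by_contra hc
  push Not at hc
  have hs : 0 < α + β := by linarith
  have hl : ∀ t : ℝ, 0 ≤ t → t ≤ 1 → ∀ x y : ℝ, |x| ≤ 1 → |x + y| ≤ 1 → |x + t * y| ≤ 1 := by
    intro t ht0 ht1 x y hx hxy
    rw [abs_le] at *
    constructor <;> nlinarith
  have hi : (α + β)⁻¹ ≤ 1 := inv_le_one_of_one_le₀ hc
  have hi0 : 0 ≤ (α + β)⁻¹ := by positivity
  refine key a b ha hb hab (α := α / (α + β)) (β := β / (α + β)) (by positivity) (by positivity)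
    (by rw [← add_div, div_self hs.ne']) h0 (fun i => ?_) (fun i => ?_)
  · have h3 := hl _ hi0 hi (a i) (β * b i) (h0 i) (h1 i)
    have h4 : a i + β / (α + β) * b i = a i + (α + β)⁻¹ * (β * b i) := by
      rw [div_eq_mul_inv]
      ring
    rw [h4]
    exact h3
  · have h3 := hl _ hi0 hi (a i) (-(α * b i)) (h0 i) (by
      have := h2 i
      rwa [← sub_eq_add_neg])
    have h4 : a i - α / (α + β) * b i = a i + (α + β)⁻¹ * (-(α * b i)) := by
      rw [div_eq_mul_inv]
      ring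
    rw [h4]
    exact h3

end Pool.Agent.Q128.NC
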