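import Mathlib
import Pool.Agent.Q128.NC.Basic
import Pool.Agent.Q128.NC.Key

/-!
# Two congruent cubes never cover a neighbourhood of the unit cube
-/

namespace Pool.Agent.Q128.NC

open Set

/-- Differences of points of a congruent copy of the cube, read in the axes of the copy. -/
theorem axes {d : ℕ} (g : E d ≃ᵢ E d) : ∃ L : E d ≃ₗᵢ[ℝ] E d,
    ∀ x ∈ g '' cube d, ∀ y ∈ g '' cube d, ∀ i, |L (x - y) i| ≤ 1 := by
  let f := g.symm.toRealAffineIsometryEquiv
  refine ⟨f.linearIsometryEquiv, ?_⟩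
  rintro _ ⟨x, hx, rfl⟩ _ ⟨y, hy, rfl⟩ i
  have h1 : f.linearIsometryEquiv (g x - g y) = x - y := by
    have h2 : f.linearIsometryEquiv (g x -ᵥ g y) = f (g x) -ᵥ f (g y) := f.map_vsub _ _
    have h3 : ∀ z, f (g z) = z := fun z => by
      show g.symm.toRealAffineIsometryEquiv (g z) = z
      rw [IsometryEquiv.coeFn_toRealAffineIsometryEquiv]
      simp
    rw [h3, h3] at h2
    exact h2
  rw [h1]
  have h4 : (x - y) i = x i - y i := rfl
  rw [h4, abs_le]
  have h5 := hx i
  have h6 := hy i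
  constructor <;> linarith [h5.1, h5.2, h6.1, h6.2]

theorem isClosed_cube (d : ℕ) : IsClosed (cube d) := by
  have : cube d = ⋂ i, {x : E d | 0 ≤ x i ∧ x i ≤ 1} := by
    ext x
    simp [cube]
  rw [this]
  refine isClosed_iInter fun i => ?_
  refine IsClosed.inter ?_ ?_
  · exact isClosed_le (f := fun _ : E d => (0 : ℝ)) (g := fun x : E d => x i)
      continuous_const (by fun_prop)
  · exact isClosed_le (f := fun x : E d => x i) (g := fun _ : E d => (1 : ℝ))
      (by fun_prop) continuous_const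

theorem isBounded_cube (d : ℕ) : Bornology.IsBounded (cube d) := by
  rw [isBounded_iff_forall_norm_le]
  refine ⟨Real.sqrt d, fun x hx => ?_⟩
  rw [EuclideanSpace.norm_eq]
  refine Real.sqrt_le_sqrt ?_
  calc ∑ i, ‖x i‖ ^ 2 ≤ ∑ _i : Fin d, (1 : ℝ) := by
        refine Finset.sum_le_sum fun i _ => ?_
        have h1 := hx i
        rw [Real.norm_eq_abs, sq_abs]
        nlinarith [h1.1, h1.2]
    _ = d := by simp

theorem isCompact_cube (d : ℕ) : IsCompact (cube d) :=
  Metric.isCompact_of_isClosed_isBounded (isClosed_cube d) (isBounded_cube d)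

/-- The centre of the cube. -/
noncomputable def mid (d : ℕ) : E d := WithLp.toLp 2 fun _ => 1 / 2

/-- A slightly larger concentric cube lies in every neighbourhood of the cube. -/
theorem exists_scale {d : ℕ} {U : Set (E d)} (hU : IsOpen U) (hC : cube d ⊆ U) :
    ∃ s : ℝ, 1 < s ∧ ∀ x ∈ cube d, mid d + s • (x - mid d) ∈ U := by
  obtain ⟨δ, hδ, hδU⟩ := (isCompact_cube d).exists_thickening_subset_open hU hC
  obtain ⟨R, hR⟩ := isBounded_iff_forall_norm_le.1 (isBounded_cube d)
  have hR' : ∀ x ∈ cube d, ‖x - mid d‖ ≤ |R| + ‖mid d‖ := fun x hx =>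
    (norm_sub_le _ _).trans (by linarith [hR x hx, le_abs_self R])
  set M := |R| + ‖mid d‖ + 1 with hM
  have hM0 : 0 < M := by positivity
  refine ⟨1 + δ / (2 * M), by linarith [show 0 < δ / (2 * M) by positivity], fun x hx => ?_⟩
  refine hδU ?_
  rw [Metric.mem_thickening_iff]
  refine ⟨x, hx, ?_⟩
  rw [dist_eq_norm]
  have h1 : mid d + (1 + δ / (2 * M)) • (x - mid d) - x = (δ / (2 * M)) • (x - mid d) := by
    module
  rw [h1, norm_smul, Real.norm_of_nonneg (by positivity)]
  have h2 := hR' x hx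
  calc δ / (2 * M) * ‖x - mid d‖ ≤ δ / (2 * M) * M := by
        refine mul_le_mul_of_nonneg_left ?_ (by positivity)
        linarith
    _ = δ / 2 := by field_simp
    _ < δ := by linarith

/-- The final step: two adjacent vertices `v`, `v + e` and the two opposite ones. -/
theorem final {d : ℕ} {A B : Set (E d)} (hAc : IsClosed A) (hBc : IsClosed B)
    (hA : ∃ L : E d ≃ₗᵢ[ℝ] E d, ∀ x ∈ A, ∀ y ∈ A, ∀ i, |L (x - y) i| ≤ 1)
    (hB : ∃ L : E d ≃ₗᵢ[ℝ] E d, ∀ x ∈ B, ∀ y ∈ B, ∀ i, |L (x - y) i| ≤ 1)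
    {s : ℝ} (hs : 1 < s) (hd : 2 ≤ d)
    (hcov : ∀ x ∈ cube d, mid d + s • (x - mid d) ∈ A ∪ B)
    (v w e : E d) (j : Fin d) (he : ∀ i, e i = if i = j then 1 else 0)
    (hv : ∀ i, v i = 0 ∨ v i = 1) (hvj : v j = 0)
    (hw : ∀ i, w i = 1 - v i - e i)
    (h1 : mid d + s • (v - mid d) ∈ A) (h2 : mid d + s • (v + e - mid d) ∈ B)
    (h3 : mid d + s • (w - mid d) ∈ A) (h4 : mid d + s • (w + e - mid d) ∈ B) : False := by
  have hs0 : 0 < s := by linarith
  have hej : e j = 1 := by rw [he, if_pos rfl]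
  have hei : ∀ i, i ≠ j → e i = 0 := fun i hi => by rw [he, if_neg hi]
  -- points on the two edges which lie in both sets
  have hedge : ∀ u : E d, (∀ i, i ≠ j → 0 ≤ u i ∧ u i ≤ 1) → u j = 0 →
      mid d + s • (u - mid d) ∈ A → mid d + s • (u + e - mid d) ∈ B →
      ∃ α : ℝ, 0 ≤ α ∧ α ≤ 1 ∧ mid d + s • (u + α • e - mid d) ∈ A ∧
        mid d + s • (u + α • e - mid d) ∈ B := by
    intro u hu huj hA1 hB1
    have hcont : Continuous fun α : ℝ => mid d + s • (u + α • e - mid d) := by fun_prop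
    have hpre := (isPreconnected_closed_iff.1 (isPreconnected_Icc (a := (0 : ℝ)) (b := 1)))
      ((fun α : ℝ => mid d + s • (u + α • e - mid d)) ⁻¹' A)
      ((fun α : ℝ => mid d + s • (u + α • e - mid d)) ⁻¹' B)
      (hAc.preimage hcont) (hBc.preimage hcont)
      (by
        intro α hα
        refine hcov _ fun i => ?_
        have h5 : (u + α • e) i = u i + α * e i := rfl
        rw [h5]
        by_cases hi : i = j
        · subst hi
          rw [huj, hej]
          constructor <;> linarith [hα.1, hα.2]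
        · rw [hei i hi]
          have := hu i hi
          constructor <;> linarith [this.1, this.2])
      ⟨0, ⟨le_refl _, zero_le_one⟩, by simpa using hA1⟩
      ⟨1, ⟨zero_le_one, le_refl _⟩, by simpa using hB1⟩
    obtain ⟨α, hα, hαA, hαB⟩ := hpre
    exact ⟨α, hα.1, hα.2, hαA, hαB⟩
  obtain ⟨α, hα0, hα1, hαA, hαB⟩ := hedge v
    (fun i _ => by rcases hv i with h | h <;> rw [h] <;> norm_num) hvj h1 h2
  have hwi : ∀ i, i ≠ j → 0 ≤ w i ∧ w i ≤ 1 := by
    intro i hi
    rw [hw, hei i hi]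
    rcases hv i with h | h <;> rw [h] <;> norm_num
  obtain ⟨β, hβ0, hβ1, hβA, hβB⟩ := hedge w hwi (by rw [hw, hvj, hej]; norm_num) h3 h4
  -- the difference vector
  have hD2 : ∀ i, (v - w) i ^ 2 = 1 - e i := by
    intro i
    have h5 : (v - w) i = v i - w i := rfl
    rw [h5, hw]
    by_cases hi : i = j
    · subst hi
      rw [hvj, hej]
      norm_num
    · rw [hei i hi]
      rcases hv i with h | h <;> rw [h] <;> norm_num
  have hDe : ∀ i, (v - w) i * e i = 0 := by
    intro i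
    by_cases hi : i = j
    · subst hi
      have h5 : (v - w) i = v i - w i := rfl
      rw [h5, hw, hvj, hej]
      norm_num
    · rw [hei i hi, mul_zero]
  have hsume : ∑ i, e i = 1 := by
    simp [he]
  have hsume2 : ∑ i, e i ^ 2 = 1 := by
    have : ∀ i, e i ^ 2 = e i := fun i => by
      rw [he]
      split_ifs <;> norm_num
    rw [Finset.sum_congr rfl fun i _ => this i, hsume]
  have hsumD : ∑ i, (v - w) i ^ 2 = (d : ℝ) - 1 := by
    rw [Finset.sum_congr rfl fun i _ => hD2 i, Finset.sum_sub_distrib, hsume]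
    simp
  -- coordinates in rotated axes
  have hL : ∀ L : E d ≃ₗᵢ[ℝ] E d, (d : ℝ) - 1 < ∑ i, L (s • (v - w)) i ^ 2 ∧
      ∑ i, L e i ^ 2 = 1 ∧ ∑ i, L (s • (v - w)) i * L e i = 0 := by
    intro L
    have hin : ∀ x y : E d, ∑ i, L x i * L y i = ∑ i, x i * y i := by
      intro x y
      have h5 := L.inner_map_map x y
      rw [PiLp.inner_apply, PiLp.inner_apply] at h5
      have h6 : ∀ a b : ℝ, inner ℝ a b = a * b := fun a b => by
        simp [mul_comm]
      simp only [h6] at h5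
      exact h5
    have h7 : ∀ x : E d, ∑ i, x i ^ 2 = ∑ i, x i * x i := fun x =>
      Finset.sum_congr rfl fun i _ => sq _
    refine ⟨?_, ?_, ?_⟩
    · rw [h7, hin]
      have h8 : ∑ i, (s • (v - w)) i * (s • (v - w)) i = s ^ 2 * ∑ i, (v - w) i ^ 2 := by
        rw [Finset.mul_sum]
        refine Finset.sum_congr rfl fun i _ => ?_
        have h9 : (s • (v - w)) i = s * (v - w) i := rfl
        rw [h9]
        ring
      rw [h8, hsumD]
      have h10 : (2 : ℝ) ≤ d := by exact_mod_cast hd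
      have h11 : 0 < s ^ 2 - 1 := by nlinarith
      nlinarith [mul_pos h11 (by linarith : (0 : ℝ) < (d : ℝ) - 1)]
    · rw [h7, hin, ← h7, hsume2]
    · rw [hin]
      refine Finset.sum_eq_zero fun i _ => ?_
      have h9 : (s • (v - w)) i = s * (v - w) i := rfl
      rw [h9, mul_assoc, hDe, mul_zero]
  obtain ⟨LA, hLA⟩ := hA
  obtain ⟨LB, hLB⟩ := hB
  have hadd : ∀ (L : E d ≃ₗᵢ[ℝ] E d) (t : ℝ) (i : Fin d),
      L (s • (v - w)) i + t * L e i = L (s • (v - w) + t • e) i := by
    intro L t i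
    rw [map_add, show L (t • e) = t • L e from L.map_smul t e]
    rfl
  have hA' : s * α + s * β < 1 := by
    obtain ⟨h5, h6, h7⟩ := hL LA
    have h8 := key2 (fun i => LA (s • (v - w)) i) (fun i => LA e i) h5 h6 h7
      (α := s * β) (β := s * α) (by positivity) (by positivity) ?_ ?_ ?_
    · linarith
    · intro i
      have h9 := hLA _ h1 _ h3 i
      have h10 : mid d + s • (v - mid d) - (mid d + s • (w - mid d)) = s • (v - w) := by
        module
      rw [h10] at h9
      exact h9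
    · intro i
      have h9 := hLA _ hαA _ h3 i
      have h10 : mid d + s • (v + α • e - mid d) - (mid d + s • (w - mid d)) =
          s • (v - w) + (s * α) • e := by
        module
      rw [h10] at h9
      rw [hadd]
      exact h9
    · intro i
      have h9 := hLA _ h1 _ hβA i
      have h10 : mid d + s • (v - mid d) - (mid d + s • (w + β • e - mid d)) =
          s • (v - w) + (-(s * β)) • e := by
        module
      rw [h10, ← hadd] at h9
      have h11 : LA (s • (v - w)) i - s * β * LA e i =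
          LA (s • (v - w)) i + -(s * β) * LA e i := by ring
      rw [h11]
      exact h9
  have hB' : s * (1 - α) + s * (1 - β) < 1 := by
    obtain ⟨h5, h6, h7⟩ := hL LB
    have h8 := key2 (fun i => LB (s • (v - w)) i) (fun i => LB e i) h5 h6 h7
      (α := s * (1 - α)) (β := s * (1 - β)) (mul_nonneg hs0.le (by linarith))
      (mul_nonneg hs0.le (by linarith)) ?_ ?_ ?_
    · linarith
    · intro i
      have h9 := hLB _ h2 _ h4 i
      have h10 : mid d + s • (v + e - mid d) - (mid d + s • (w + e - mid d)) =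
          s • (v - w) := by
        module
      rw [h10] at h9
      exact h9
    · intro i
      have h9 := hLB _ h2 _ hβB i
      have h10 : mid d + s • (v + e - mid d) - (mid d + s • (w + β • e - mid d)) =
          s • (v - w) + (s * (1 - β)) • e := by
        module
      rw [h10] at h9
      rw [hadd]
      exact h9
    · intro i
      have h9 := hLB _ hαB _ h4 i
      have h10 : mid d + s • (v + α • e - mid d) - (mid d + s • (w + e - mid d)) =
          s • (v - w) + (-(s * (1 - α))) • e := by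
        module
      rw [h10, ← hadd] at h9
      have h11 : LB (s • (v - w)) i - s * (1 - α) * LB e i =
          LB (s • (v - w)) i + -(s * (1 - α)) * LB e i := by ring
      rw [h11]
      exact h9
  nlinarith

/-- A congruent copy of the unit cube does not contain two opposite vertices of a larger cube. -/
theorem opposite {d : ℕ} (hd : 1 ≤ d) {S : Set (E d)}
    (hS : ∃ L : E d ≃ₗᵢ[ℝ] E d, ∀ x ∈ S, ∀ y ∈ S, ∀ i, |L (x - y) i| ≤ 1)
    {s : ℝ} (hs : 1 < s) (v w : E d) (hv : ∀ i, v i = 0 ∨ v i = 1) (hw : ∀ i, w i = 1 - v i)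
    (h1 : mid d + s • (v - mid d) ∈ S) (h2 : mid d + s • (w - mid d) ∈ S) : False := by
  obtain ⟨L, hL⟩ := hS
  have h3 : ∀ i, |L (s • (v - w)) i| ≤ 1 := by
    intro i
    have h9 := hL _ h1 _ h2 i
    have h10 : mid d + s • (v - mid d) - (mid d + s • (w - mid d)) = s • (v - w) := by
      module
    rw [h10] at h9
    exact h9
  have h4 : ∑ i, L (s • (v - w)) i ^ 2 ≤ d := by
    calc ∑ i, L (s • (v - w)) i ^ 2 ≤ ∑ _i : Fin d, (1 : ℝ) := by
          refine Finset.sum_le_sum fun i _ => ?_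
          rw [← sq_abs]
          exact pow_le_one₀ (abs_nonneg _) (h3 i)
      _ = d := by simp
  have h5 : ∑ i, L (s • (v - w)) i ^ 2 = ∑ i, (s • (v - w)) i ^ 2 := by
    have h6 : ∀ x : E d, ∑ i, x i ^ 2 = ‖x‖ ^ 2 := fun x => by
      rw [EuclideanSpace.norm_sq_eq]
      refine Finset.sum_congr rfl fun i _ => ?_
      rw [Real.norm_eq_abs, sq_abs]
    rw [h6, h6, L.norm_map]
  have h6 : ∑ i, (s • (v - w)) i ^ 2 = s ^ 2 * d := by
    have h7 : ∀ i, (s • (v - w)) i ^ 2 = s ^ 2 := by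
      intro i
      have h8 : (s • (v - w)) i = s * (v i - w i) := rfl
      rw [h8, hw]
      rcases hv i with h | h <;> rw [h] <;> ring
    rw [Finset.sum_congr rfl fun i _ => h7 i]
    simp [mul_comm]
  rw [h5, h6] at h4
  have h7 : (1 : ℝ) ≤ d := by exact_mod_cast hd
  have h8 : 0 < s ^ 2 - 1 := by nlinarith
  nlinarith [mul_pos h8 (by linarith : (0 : ℝ) < (d : ℝ))]

theorem not_covers_two {d : ℕ} (hd : 2 ≤ d) : ¬ Covers d 2 := by
  rintro ⟨g, U, hU, hC, hg⟩
  obtain ⟨s, hs, hsU⟩ := exists_scale hU hC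
  have hclosed : ∀ i, IsClosed (g i '' cube d) := fun i =>
    ((isCompact_cube d).image (g i).continuous).isClosed
  have hcov : ∀ x ∈ cube d, mid d + s • (x - mid d) ∈ g 0 '' cube d ∪ g 1 '' cube d := by
    intro x hx
    obtain ⟨i, hi⟩ := mem_iUnion.1 (hg (hsU x hx))
    fin_cases i
    · exact Or.inl hi
    · exact Or.inr hi
  have hcov' : ∀ x ∈ cube d, mid d + s • (x - mid d) ∈ g 1 '' cube d ∪ g 0 '' cube d := by
    intro x hx
    exact (hcov x hx).symm
  generalize hAdef : g 0 '' cube d = A at hcov hcov'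
  generalize hBdef : g 1 '' cube d = B at hcov hcov'
  have hAc : IsClosed A := hAdef ▸ hclosed 0
  have hBc : IsClosed B := hBdef ▸ hclosed 1
  have hA : ∃ L : E d ≃ₗᵢ[ℝ] E d, ∀ x ∈ A, ∀ y ∈ A, ∀ i, |L (x - y) i| ≤ 1 :=
    hAdef ▸ axes (g 0)
  have hB : ∃ L : E d ≃ₗᵢ[ℝ] E d, ∀ x ∈ B, ∀ y ∈ B, ∀ i, |L (x - y) i| ≤ 1 :=
    hBdef ▸ axes (g 1)
  let X : ℕ → E d := fun k => WithLp.toLp 2 fun i => if (i : ℕ) < k then 1 else 0
  let Y : ℕ → E d := fun k => WithLp.toLp 2 fun i => if (i : ℕ) < k then 0 else 1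
  have hX : ∀ k i, X k i = if (i : ℕ) < k then 1 else 0 := fun k i => rfl
  have hY : ∀ k i, Y k i = if (i : ℕ) < k then 0 else 1 := fun k i => rfl
  have hX01 : ∀ k i, X k i = 0 ∨ X k i = 1 := by
    intro k i
    rw [hX]
    split_ifs <;> simp
  have hY01 : ∀ k i, Y k i = 0 ∨ Y k i = 1 := by
    intro k i
    rw [hY]
    split_ifs <;> simp
  have hYX : ∀ k i, Y k i = 1 - X k i := by
    intro k i
    rw [hX, hY]
    split_ifs <;> norm_num
  have hXc : ∀ k, X k ∈ cube d := fun k i => by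
    rcases hX01 k i with h | h <;> rw [h] <;> norm_num
  have hYc : ∀ k, Y k ∈ cube d := fun k i => by
    rcases hY01 k i with h | h <;> rw [h] <;> norm_num
  let q : E d → E d := fun x => mid d + s • (x - mid d)
  have hqX : ∀ k, q (X k) ∈ A ∨ q (X k) ∈ B := fun k => hcov _ (hXc k)
  have hqY : ∀ k, q (Y k) ∈ A ∨ q (Y k) ∈ B := fun k => hcov _ (hYc k)
  have hnA : ∀ k, ¬ (q (X k) ∈ A ∧ q (Y k) ∈ A) := fun k h =>
    opposite (by omega) hA hs (X k) (Y k) (hX01 k) (hYX k) h.1 h.2
  have hnB : ∀ k, ¬ (q (X k) ∈ B ∧ q (Y k) ∈ B) := fun k h =>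
    opposite (by omega) hB hs (X k) (Y k) (hX01 k) (hYX k) h.1 h.2
  have hpos : ∀ k, q (X k) ∈ A → q (Y k) ∈ B := fun k h =>
    (hqY k).resolve_left fun h' => hnA k ⟨h, h'⟩
  have hneg : ∀ k, ¬ q (X k) ∈ A → q (X k) ∈ B ∧ q (Y k) ∈ A := fun k h =>
    ⟨(hqX k).resolve_left h,
      (hqY k).resolve_right fun h' => hnB k ⟨(hqX k).resolve_left h, h'⟩⟩
  have h0d : X 0 = Y d := by
    ext i
    rw [hX, hY, if_neg (Nat.not_lt_zero _), if_pos i.2]
  have hex : ∃ k, k < d ∧ ¬ (q (X k) ∈ A ↔ q (X (k + 1)) ∈ A) := by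
    by_contra hc
    push Not at hc
    have h1 : ∀ k, k ≤ d → (q (X 0) ∈ A ↔ q (X k) ∈ A) := by
      intro k
      induction k with
      | zero => intro _; exact Iff.rfl
      | succ k ih => intro hk; exact (ih (by omega)).trans (hc k (by omega))
    have h2 := h1 d le_rfl
    rw [h0d] at h2
    by_cases h5 : q (X d) ∈ A
    · exact hnA d ⟨h5, h2.2 h5⟩
    · exact h5 (h2.1 (hneg d h5).2)
  obtain ⟨k, hk, hne⟩ := hex
  let e : E d := WithLp.toLp 2 fun i => if i = ⟨k, hk⟩ then 1 else 0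
  have he : ∀ i, e i = if i = ⟨k, hk⟩ then 1 else 0 := fun i => rfl
  have hXe : X k + e = X (k + 1) := by
    ext i
    have h1 : (X k + e) i = X k i + e i := rfl
    rw [h1, hX, hX, he]
    by_cases hi : i = ⟨k, hk⟩
    · subst hi
      simp
    · have h2 : (i : ℕ) ≠ k := fun h => hi (Fin.ext h)
      rw [if_neg hi, add_zero]
      by_cases h3 : (i : ℕ) < k
      · rw [if_pos h3, if_pos (by omega)]
      · rw [if_neg h3, if_neg (by omega)]
  have hYe : Y (k + 1) + e = Y k := by
    ext i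
    have h1 : (Y (k + 1) + e) i = Y (k + 1) i + e i := rfl
    rw [h1, hY, hY, he]
    by_cases hi : i = ⟨k, hk⟩
    · subst hi
      simp
    · have h2 : (i : ℕ) ≠ k := fun h => hi (Fin.ext h)
      rw [if_neg hi, add_zero]
      by_cases h3 : (i : ℕ) < k
      · rw [if_pos h3, if_pos (by omega)]
      · rw [if_neg h3, if_neg (by omega)]
  have hw : ∀ i, Y (k + 1) i = 1 - X k i - e i := by
    intro i
    have h1 : X (k + 1) i = X k i + e i := by
      rw [← hXe]
      rfl
    rw [hYX, h1]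
    ring
  have hvj : X k ⟨k, hk⟩ = 0 := by
    rw [hX, if_neg (by simp)]
  by_cases hP : q (X k) ∈ A
  · have c0 : ¬ q (X (k + 1)) ∈ A := fun h => hne ⟨fun _ => h, fun _ => hP⟩
    obtain ⟨c1, c2⟩ := hneg (k + 1) c0
    have c3 : q (Y k) ∈ B := hpos k hP
    refine final hAc hBc hA hB hs hd hcov (X k) (Y (k + 1)) e ⟨k, hk⟩ he (hX01 k) hvj hw
      hP ?_ c2 ?_
    · rw [hXe]
      exact c1
    · rw [hYe]
      exact c3
  · have c1 : q (X (k + 1)) ∈ A := by
      by_contra h
      exact hne ⟨fun h' => absurd h' hP, fun h' => absurd h' h⟩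
    obtain ⟨c0, c3⟩ := hneg k hP
    have c2 : q (Y (k + 1)) ∈ B := hpos (k + 1) c1
    refine final hBc hAc hB hA hs hd hcov' (X k) (Y (k + 1)) e ⟨k, hk⟩ he (hX01 k) hvj hw
      c0 ?_ c2 ?_
    · rw [hXe]
      exact c1
    · rw [hYe]
      exact c3

end Pool.Agent.Q128.NC
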