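import Mathlib
import Pool.Agent.Q128.NC.Basic

/-!
# `d + 1` congruent cubes cover a neighbourhood of the unit cube
-/

namespace Pool.Agent.Q128.NC

open Set

theorem exU (d : ℕ) : ∃ U : Fin (d + 1) → Fin (d + 1) → ℝ,
    (∀ j k, ∑ i, U j i * U k i = if j = k then 1 else 0) ∧
    ∀ j, ∑ i : Fin d, |U j i.succ| < 1 := by
  induction d with
  | zero =>
    refine ⟨fun _ _ => 1, ?_, ?_⟩
    · intro j k
      have : j = k := Fin.ext (by have := j.2; have := k.2; omega)
      simp [this]
    · intro j
      simp
  | succ d ih =>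
    obtain ⟨U, h1, h2⟩ := ih
    obtain ⟨j0, hj0⟩ := Finite.exists_min (fun j => 1 - ∑ i : Fin d, |U j i.succ|)
    obtain ⟨δ, hδ, hδ2⟩ : ∃ δ : ℝ, 0 < δ ∧ ∀ j, ∑ i : Fin d, |U j i.succ| + δ < 1 := by
      refine ⟨(1 - ∑ i : Fin d, |U j0 i.succ|) / 2, by linarith [h2 j0], fun j => ?_⟩
      have := hj0 j
      have := h2 j0
      linarith
    have hle : ∀ j, |U j 0| ≤ 1 := by
      intro j
      have h3 := h1 j j
      rw [if_pos rfl, Fin.sum_univ_succ] at h3
      have h4 : 0 ≤ ∑ i : Fin d, U j i.succ * U j i.succ :=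
        Finset.sum_nonneg fun i _ => mul_self_nonneg _
      rw [abs_le]
      constructor <;> nlinarith
    set α : ℝ := min δ (1 / 2) with hα
    have hα0 : 0 < α := by
      rw [hα]
      exact lt_min hδ (by norm_num)
    have hαδ : α ≤ δ := min_le_left _ _
    have hα1 : α ≤ 1 / 2 := min_le_right _ _
    set β : ℝ := Real.sqrt (1 - α ^ 2) with hβ
    have hβ2 : β ^ 2 = 1 - α ^ 2 := by
      rw [hβ]
      exact Real.sq_sqrt (by nlinarith)
    have hβ0 : 0 ≤ β := Real.sqrt_nonneg _
    have hβ1 : β < 1 := by nlinarith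
    refine ⟨fun j i => Fin.cases (motive := fun _ => ℝ)
      (Fin.cases (motive := fun _ => ℝ) α
        (fun i' => Fin.cases (motive := fun _ => ℝ) β (fun _ => 0) i') i)
      (fun j' => Fin.cases (motive := fun _ => ℝ) (-β * U j' 0)
        (fun i' => Fin.cases (motive := fun _ => ℝ) (α * U j' 0) (fun i'' => U j' i''.succ) i') i)
      j, ?_, ?_⟩
    · intro j k
      refine Fin.cases ?_ (fun j' => ?_) j <;> refine Fin.cases ?_ (fun k' => ?_) k
      · simp only [Fin.sum_univ_succ, Fin.cases_zero, Fin.cases_succ]
        simp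
        nlinarith
      · simp only [Fin.sum_univ_succ, Fin.cases_zero, Fin.cases_succ]
        rw [if_neg (Fin.succ_ne_zero _).symm]
        simp
        ring
      · simp only [Fin.sum_univ_succ, Fin.cases_zero, Fin.cases_succ]
        rw [if_neg (Fin.succ_ne_zero _)]
        simp
        ring
      · have h3 := h1 j' k'
        rw [Fin.sum_univ_succ] at h3
        have h5 : (if j'.succ = k'.succ then (1 : ℝ) else 0) = if j' = k' then 1 else 0 := by
          simp [Fin.succ_inj]
        rw [h5, ← h3]
        rw [Fin.sum_univ_succ, Fin.sum_univ_succ]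
        simp only [Fin.cases_zero, Fin.cases_succ]
        have h6 : -β * U j' 0 * (-β * U k' 0) + (α * U j' 0 * (α * U k' 0)) =
            (β ^ 2 + α ^ 2) * (U j' 0 * U k' 0) := by ring
        rw [← add_assoc, h6, hβ2]
        ring
    · intro j
      refine Fin.cases ?_ (fun j' => ?_) j
      · simp only [Fin.sum_univ_succ, Fin.cases_zero, Fin.cases_succ]
        simp
        rw [abs_of_nonneg hβ0]
        exact hβ1
      · rw [Fin.sum_univ_succ]
        simp only [Fin.cases_zero, Fin.cases_succ]
        have h3 := hδ2 j'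
        have h4 : |α * U j' 0| ≤ α := by
          rw [abs_mul, abs_of_pos hα0]
          nlinarith [hle j']
        linarith

theorem exBasis (d : ℕ) (k : Fin (d + 1)) : ∃ b : OrthonormalBasis (Fin (d + 1)) ℝ (E (d + 1)),
    ∀ j, ∑ i ∈ Finset.univ.erase k, |b j i| < 1 := by
  obtain ⟨U, h1, h2⟩ := exU d
  let v : Fin (d + 1) → E (d + 1) := fun j => WithLp.toLp 2 fun i => U j (Equiv.swap 0 k i)
  have hv : Orthonormal ℝ v := by
    rw [orthonormal_iff_ite]
    intro i j
    have h3 : inner ℝ (v i) (v j) = ∑ l, U i (Equiv.swap 0 k l) * U j (Equiv.swap 0 k l) := by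
      rw [PiLp.inner_apply]
      refine Finset.sum_congr rfl fun l _ => ?_
      simp [v, mul_comm]
    rw [h3, ← h1 i j]
    exact Equiv.sum_comp (Equiv.swap 0 k) (fun l => U i l * U j l)
  obtain ⟨b, hb⟩ := Orthonormal.exists_orthonormalBasis_extension_of_card_eq (𝕜 := ℝ)
    (E := E (d + 1)) (ι := Fin (d + 1)) (by simp) (v := v) (s := Set.univ)
    (by
      have := hv
      exact this.comp _ Subtype.val_injective)
  refine ⟨b, fun j => ?_⟩
  rw [hb j (mem_univ _)]
  have h4 : ∑ i ∈ Finset.univ.erase k, |v j i| = ∑ i : Fin d, |U j i.succ| := by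
    have h5 : ∑ i, |v j i| = ∑ i, |U j i| := by
      have : ∀ i, |v j i| = |U j (Equiv.swap 0 k i)| := fun i => rfl
      rw [Finset.sum_congr rfl fun i _ => this i]
      exact Equiv.sum_comp (Equiv.swap 0 k) (fun l => |U j l|)
    have h6 := Finset.add_sum_erase Finset.univ (fun i => |v j i|) (Finset.mem_univ k)
    have h7 : |v j k| = |U j 0| := by
      show |U j (Equiv.swap 0 k k)| = |U j 0|
      rw [Equiv.swap_apply_right]
    have h8 := Fin.sum_univ_succ (fun i => |U j i|)
    linarith
  rw [h4]
  exact h2 j

theorem covers_succ (d : ℕ) : Covers (d + 1) (d + 1 + 1) := by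
  choose b hb using exBasis d
  obtain ⟨δ, hδ, hδ2⟩ : ∃ δ : ℝ, 0 < δ ∧
      ∀ k j, ∑ i ∈ Finset.univ.erase k, |b k j i| + δ < 1 := by
    obtain ⟨p, hp⟩ := Finite.exists_min
      (fun p : Fin (d + 1) × Fin (d + 1) => 1 - ∑ i ∈ Finset.univ.erase p.1, |b p.1 p.2 i|)
    refine ⟨(1 - ∑ i ∈ Finset.univ.erase p.1, |b p.1 p.2 i|) / 2,
      by linarith [hb p.1 p.2], fun k j => ?_⟩
    have h1 := hp (k, j)
    have h2 := hb p.1 p.2
    simp only at h1
    linarith
  have hδ1 : δ < 1 := by
    have := hδ2 0 0
    have h : 0 ≤ ∑ i ∈ Finset.univ.erase (0 : Fin (d + 1)), |b 0 0 i| :=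
      Finset.sum_nonneg fun i _ => abs_nonneg _
    linarith
  set η : ℝ := δ / 4 with hη
  have hη0 : 0 < η := by positivity
  let h : E (d + 1) := WithLp.toLp 2 fun _ => 1 / 2
  let p : Fin (d + 1) → E (d + 1) := fun k => WithLp.toLp 2 fun i => if i = k then 1 else 1 / 2
  let G : Fin (d + 1) → (E (d + 1) ≃ᵢ E (d + 1)) := fun k =>
    ((IsometryEquiv.addRight (-h)).trans (b k).repr.symm.toIsometryEquiv).trans
      (IsometryEquiv.addRight (p k))
  let t : E (d + 1) := WithLp.toLp 2 fun _ => -η
  refine ⟨Fin.cons (IsometryEquiv.addRight t) G, {x | ∀ i, -η < x i ∧ x i < 1 + η}, ?_, ?_, ?_⟩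
  · have : {x : E (d + 1) | ∀ i, -η < x i ∧ x i < 1 + η} =
        ⋂ i, {x : E (d + 1) | -η < x i ∧ x i < 1 + η} := by
      ext x
      simp
    rw [this]
    refine isOpen_iInter_of_finite fun i => ?_
    refine IsOpen.inter ?_ ?_
    · exact isOpen_lt (f := fun _ : E (d + 1) => -η) (g := fun x : E (d + 1) => x i)
        continuous_const (by fun_prop)
    · exact isOpen_lt (f := fun x : E (d + 1) => x i) (g := fun _ : E (d + 1) => 1 + η)
        (by fun_prop) continuous_const
  · intro x hx i
    have := hx i
    constructor <;> linarith [this.1, this.2]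
  · intro x hx
    by_cases hc : ∀ i, x i ≤ 1 - η
    · refine mem_iUnion.2 ⟨0, ?_⟩
      rw [Fin.cons_zero]
      refine ⟨x - t, fun i => ?_, ?_⟩
      · have h1 := hx i
        have h2 := hc i
        have h3 : (x - t) i = x i + η := by
          simp [t]
        rw [h3]
        constructor <;> linarith [h1.1]
      · simp
    · push Not at hc
      obtain ⟨k, hk⟩ := hc
      refine mem_iUnion.2 ⟨k.succ, ?_⟩
      rw [Fin.cons_succ]
      refine ⟨(b k).repr (x - p k) + h, fun j => ?_, ?_⟩
      · have h1 : ((b k).repr (x - p k) + h) j = (b k).repr (x - p k) j + 1 / 2 := by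
          simp [h]
        rw [h1, (b k).repr_apply_apply]
        have h2 : inner ℝ (b k j) (x - p k) = ∑ i, b k j i * (x - p k) i := by
          rw [PiLp.inner_apply]
          refine Finset.sum_congr rfl fun l _ => ?_
          simp [mul_comm]
        have h3 : |∑ i, b k j i * (x - p k) i| ≤ 1 / 2 := by
          rw [← Finset.add_sum_erase Finset.univ _ (Finset.mem_univ k)]
          have h4 : |b k j k * (x - p k) k| ≤ η := by
            rw [abs_mul]
            have h5 : |b k j k| ≤ 1 := by
              have h6 := PiLp.norm_apply_le (b k j) k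
              rw [(b k).norm_eq_one] at h6
              simpa using h6
            have h7 : |(x - p k) k| ≤ η := by
              have h8 : (x - p k) k = x k - 1 := by
                simp [p]
              rw [h8, abs_le]
              have := hx k
              constructor <;> linarith [this.1, this.2]
            have h9 := abs_nonneg (b k j k)
            have h10 := abs_nonneg ((x - p k) k)
            nlinarith
          have h11 : |∑ i ∈ Finset.univ.erase k, b k j i * (x - p k) i| ≤
              (∑ i ∈ Finset.univ.erase k, |b k j i|) * (1 / 2 + η) := by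
            refine (Finset.abs_sum_le_sum_abs _ _).trans ?_
            rw [Finset.sum_mul]
            refine Finset.sum_le_sum fun i hi => ?_
            rw [abs_mul]
            refine mul_le_mul_of_nonneg_left ?_ (abs_nonneg _)
            have h12 : (x - p k) i = x i - 1 / 2 := by
              simp [p, Finset.ne_of_mem_erase hi]
            rw [h12, abs_le]
            have := hx i
            constructor <;> linarith [this.1, this.2]
          have h13 := hδ2 k j
          have h14 : (∑ i ∈ Finset.univ.erase k, |b k j i|) * (1 / 2 + η) ≤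
              (1 - δ) * (1 / 2 + η) := by
            refine mul_le_mul_of_nonneg_right ?_ (by positivity)
            linarith
          have h15 : (1 - δ) * (1 / 2 + η) ≤ 1 / 2 - η := by
            rw [hη]
            nlinarith
          calc |b k j k * (x - p k) k + ∑ i ∈ Finset.univ.erase k, b k j i * (x - p k) i|
              ≤ |b k j k * (x - p k) k| +
                |∑ i ∈ Finset.univ.erase k, b k j i * (x - p k) i| := abs_add_le _ _
            _ ≤ 1 / 2 := by linarith
        rw [h2]
        rw [abs_le] at h3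
        constructor <;> linarith [h3.1, h3.2]
      · simp [G]

end Pool.Agent.Q128.NC
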